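import Pool.Agent.H41.ET.Defs

/-!
# Flips towards one orbit
-/

set_option autoImplicit false
set_option linter.unusedSectionVars false

namespace Pool.Agent.H870.ET

open Pool.Agent.H41.ET

section basic

variable {V : Type} {N O : V → V}

theorem mem_orb (x : V) : x ∈ orb N O x := fun _ _ h => h

theorem cl_orb (x : V) : Cl N O (orb N O x) :=
  ⟨fun _ hy A hA hx => hA.1 _ (hy A hA hx), fun _ hy A hA hx => hA.2 _ (hy A hA hx)⟩

theorem orb_sub {A : Set V} (hA : Cl N O A) {x : V} (hx : x ∈ A) : orb N O x ⊆ A :=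
  fun _ hy => hy A hA hx

theorem cl_compl (hN : Inv0 N) (hO : Inv0 O) {A : Set V} (hA : Cl N O A) : Cl N O Aᶜ := by
  refine ⟨fun x hx h => hx ?_, fun x hx h => hx ?_⟩
  · have := hA.1 _ h
    rwa [hN.1] at this
  · have := hA.2 _ h
    rwa [hO.1] at this

theorem orb_symm (hN : Inv0 N) (hO : Inv0 O) {x y : V} (h : y ∈ orb N O x) : x ∈ orb N O y := by
  by_contra hx
  exact h _ (cl_compl hN hO (cl_orb y)) hx (mem_orb y)

/-- A closed set which meets an orbit contains it. -/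
theorem orb_sub_of_meet (hN : Inv0 N) (hO : Inv0 O) {A : Set V} (hA : Cl N O A) {x y : V}
    (hy : y ∈ A) (hyx : y ∈ orb N O x) : orb N O x ⊆ A :=
  orb_sub hA (orb_sub hA hy (orb_symm hN hO hyx))

/-- Different orbits are disjoint. -/
theorem orb_disj (hN : Inv0 N) (hO : Inv0 O) {x y w : V} (h : y ∉ orb N O x)
    (hw : w ∈ orb N O x) : w ∉ orb N O y := fun hw' =>
  h (orb_sub (cl_orb x) hw (orb_symm hN hO hw'))

theorem even_ncard [Finite V] (hN : Inv0 N) {A : Set V} (hA : ∀ x ∈ A, N x ∈ A) :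
    Even A.ncard := by
  classical
  have hf : A.Finite := A.toFinite
  have h1 : ∑ _x ∈ hf.toFinset, (1 : ZMod 2) = 0 := by
    refine Finset.sum_involution (fun a _ => N a) ?_ ?_ ?_ ?_
    · intro a _
      decide
    · intro a _ _
      exact hN.2 a
    · intro a ha
      rw [Set.Finite.mem_toFinset] at ha ⊢
      exact hA a ha
    · intro a _
      exact hN.1 a
  rw [Finset.sum_const, nsmul_eq_mul, mul_one] at h1
  rw [Set.ncard_eq_toFinset_card A hf]
  exact (ZMod.natCast_eq_zero_iff_even).1 h1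

end basic

section step

variable {V : Type} [DecidableEq V]

/-- the flip -/
def fl (N : V → V) (x c : V) (a : V) : V :=
  if a = x then c else if a = c then x else if a = N x then N c else if a = N c then N x else N a

variable {N O : V → V} {x c z : V}

theorem fl_x : fl N x c x = c := if_pos rfl

theorem fl_c (h : c ≠ x) : fl N x c c = x := by
  unfold fl
  rw [if_neg h, if_pos rfl]

theorem fl_Nx (h1 : N x ≠ x) (h2 : N x ≠ c) : fl N x c (N x) = N c := by
  unfold fl
  rw [if_neg h1, if_neg h2, if_pos rfl]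

theorem fl_Nc (h1 : N c ≠ x) (h2 : N c ≠ c) (h3 : N c ≠ N x) : fl N x c (N c) = N x := by
  unfold fl
  rw [if_neg h1, if_neg h2, if_neg h3, if_pos rfl]

theorem fl_ne {a : V} (h1 : a ≠ x) (h2 : a ≠ c) (h3 : a ≠ N x) (h4 : a ≠ N c) :
    fl N x c a = N a := by
  unfold fl
  rw [if_neg h1, if_neg h2, if_neg h3, if_neg h4]

/-- the four points -/
structure Four (N O : V → V) (x c z : V) : Prop where
  hN : Inv0 N
  hO : Inv0 O
  hx : x ∉ orb N O z
  hc : c ∈ orb N O z

variable (h : Four N O x c z)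
include h

theorem Four.Nc : N c ∈ orb N O z := (cl_orb z).1 _ h.hc

theorem Four.Nx : N x ∉ orb N O z := fun h1 => h.hx (by
  have := (cl_orb z).1 _ h1
  rwa [h.hN.1] at this)

theorem Four.cx : c ≠ x := fun e => h.hx (e ▸ h.hc)
theorem Four.Nxx : N x ≠ x := h.hN.2 x
theorem Four.Nxc : N x ≠ c := fun e => h.Nx (e ▸ h.hc)
theorem Four.Ncx : N c ≠ x := fun e => h.hx (e ▸ h.Nc)
theorem Four.Ncc : N c ≠ c := h.hN.2 c
theorem Four.NcNx : N c ≠ N x := fun e => h.Nx (e ▸ h.Nc)

theorem Four.inv : Inv0 (fl N x c) := by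
  constructor
  · intro a
    by_cases h1 : a = x
    · rw [h1, fl_x, fl_c h.cx]
    by_cases h2 : a = c
    · rw [h2, fl_c h.cx, fl_x]
    by_cases h3 : a = N x
    · rw [h3, fl_Nx h.Nxx h.Nxc, fl_Nc h.Ncx h.Ncc h.NcNx]
    by_cases h4 : a = N c
    · rw [h4, fl_Nc h.Ncx h.Ncc h.NcNx, fl_Nx h.Nxx h.Nxc]
    rw [fl_ne h1 h2 h3 h4, fl_ne, h.hN.1]
    · intro e
      exact h3 (by rw [← e, h.hN.1])
    · intro e
      exact h4 (by rw [← e, h.hN.1])
    · intro e
      exact h1 (by rw [← h.hN.1 a, e, h.hN.1])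
    · intro e
      exact h2 (by rw [← h.hN.1 a, e, h.hN.1])
  · intro a
    by_cases h1 : a = x
    · rw [h1, fl_x]
      exact h.cx
    by_cases h2 : a = c
    · rw [h2, fl_c h.cx]
      exact h.cx.symm
    by_cases h3 : a = N x
    · rw [h3, fl_Nx h.Nxx h.Nxc]
      exact h.NcNx
    by_cases h4 : a = N c
    · rw [h4, fl_Nc h.Ncx h.Ncc h.NcNx]
      exact h.NcNx.symm
    rw [fl_ne h1 h2 h3 h4]
    exact h.hN.2 a

/-- The parity argument: sets closed under the flipped matching are closed under the old one. -/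
theorem Four.closed [Finite V] {A : Set V} (hA : Cl (fl N x c) O A) : Cl N O A := by
  have hev : Even (A ∩ orb N O x).ncard :=
    even_ncard h.hO fun a ha => ⟨hA.2 a ha.1, (cl_orb x).2 a ha.2⟩
  have hcx : ∀ a ∈ orb N O x, a ≠ c := fun a ha e =>
    orb_disj h.hN h.hO (fun h1 => h.hx (orb_symm h.hN h.hO h1)) ha (e ▸ h.hc)
  have hNcx : ∀ a ∈ orb N O x, a ≠ N c := fun a ha e =>
    orb_disj h.hN h.hO (fun h1 => h.hx (orb_symm h.hN h.hO h1)) ha (e ▸ h.Nc)
  have hodd : ∀ w, w = x ∨ w = N x → w ∈ A → N w ∉ A → False := by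
    intro w hw hwA hNw
    have hwo : w ∈ orb N O x := by
      rcases hw with rfl | rfl
      · exact mem_orb _
      · exact (cl_orb x).1 _ (mem_orb x)
    have h1 : Even ((A ∩ orb N O x) \ {w}).ncard := by
      refine even_ncard h.hN fun a ha => ?_
      have haw : a ≠ w := ha.2
      have haNw : a ≠ N w := fun e => hNw (e ▸ ha.1.1)
      have hax : a ≠ x := by
        rcases hw with rfl | rfl
        · exact haw
        · rwa [h.hN.1] at haNw
      have haNx : a ≠ N x := by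
        rcases hw with rfl | rfl
        · exact haNw
        · exact haw
      have h2 := hA.1 a ha.1.1
      rw [fl_ne hax (hcx a ha.1.2) haNx (hNcx a ha.1.2)] at h2
      refine ⟨⟨h2, (cl_orb x).1 _ ha.1.2⟩, fun e => haNw ?_⟩
      have e' : N a = w := e
      rw [← e', h.hN.1]
    have h2 : ((A ∩ orb N O x) \ {w}).ncard + 1 = (A ∩ orb N O x).ncard :=
      Set.ncard_sdiff_singleton_add_one ⟨hwA, hwo⟩ (Set.toFinite _)
    rw [← h2] at hev
    exact (Nat.not_even_iff_odd.2 (Even.add_one h1)) hev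
  have hxN : x ∈ A ↔ N x ∈ A := by
    constructor
    · intro h1
      by_contra h2
      exact hodd x (Or.inl rfl) h1 h2
    · intro h1
      by_contra h2
      exact hodd (N x) (Or.inr rfl) h1 (by rwa [h.hN.1])
  have hxc : x ∈ A ↔ c ∈ A := by
    constructor
    · intro h1
      have := hA.1 _ h1
      rwa [fl_x] at this
    · intro h1
      have := hA.1 _ h1
      rwa [fl_c h.cx] at this
  have hNxc : N x ∈ A ↔ N c ∈ A := by
    constructor
    · intro h1
      have := hA.1 _ h1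
      rwa [fl_Nx h.Nxx h.Nxc] at this
    · intro h1
      have := hA.1 _ h1
      rwa [fl_Nc h.Ncx h.Ncc h.NcNx] at this
  refine ⟨fun a ha => ?_, hA.2⟩
  by_cases h1 : a = x
  · rw [h1] at ha ⊢
    exact hxN.1 ha
  by_cases h2 : a = c
  · rw [h2] at ha ⊢
    exact hNxc.1 (hxN.1 (hxc.2 ha))
  by_cases h3 : a = N x
  · rw [h3] at ha ⊢
    rw [h.hN.1]
    exact hxN.2 ha
  by_cases h4 : a = N c
  · rw [h4] at ha ⊢
    rw [h.hN.1]
    exact hxc.1 (hxN.2 (hNxc.2 ha))
  have := hA.1 a ha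
  rwa [fl_ne h1 h2 h3 h4] at this

/-- The orbit of `z` grows. -/
theorem Four.orb_z [Finite V] : orb N O z ⊆ orb (fl N x c) O z ∧
    orb N O x ⊆ orb (fl N x c) O z := by
  have h1 : Cl N O (orb (fl N x c) O z) := h.closed (cl_orb z)
  have h2 : orb N O z ⊆ orb (fl N x c) O z := orb_sub h1 (mem_orb z)
  refine ⟨h2, orb_sub h1 ?_⟩
  have h3 := (cl_orb (N := fl N x c) (O := O) z).1 _ (h2 h.hc)
  rwa [fl_c h.cx] at h3

theorem Four.orb_z_le : orb (fl N x c) O z ⊆ orb N O z ∪ orb N O x := by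
  refine orb_sub ⟨fun a ha => ?_, fun a ha => ?_⟩ (Or.inl (mem_orb z))
  · by_cases h1 : a = x
    · rw [h1, fl_x]
      exact Or.inl h.hc
    by_cases h2 : a = c
    · rw [h2, fl_c h.cx]
      exact Or.inr (mem_orb x)
    by_cases h3 : a = N x
    · rw [h3, fl_Nx h.Nxx h.Nxc]
      exact Or.inl h.Nc
    by_cases h4 : a = N c
    · rw [h4, fl_Nc h.Ncx h.Ncc h.NcNx]
      exact Or.inr ((cl_orb x).1 _ (mem_orb x))
    rw [fl_ne h1 h2 h3 h4]
    exact ha.imp (fun h5 => (cl_orb z).1 _ h5) fun h5 => (cl_orb x).1 _ h5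
  · exact ha.imp (fun h5 => (cl_orb z).2 _ h5) fun h5 => (cl_orb x).2 _ h5

/-- The flipped matching on another orbit. -/
theorem Four.other {y a : V} (hy : y ∉ orb N O x) (hyz : y ∉ orb N O z) (ha : a ∈ orb N O y) :
    a ≠ x ∧ a ≠ c ∧ a ≠ N x ∧ a ≠ N c := by
  have h1 : a ∉ orb N O x := fun h2 => orb_disj h.hN h.hO hy h2 ha
  have h3 : a ∉ orb N O z := fun h2 => orb_disj h.hN h.hO hyz h2 ha
  refine ⟨fun e => h1 ?_, fun e => h3 ?_, fun e => h1 ?_, fun e => h3 ?_⟩
  · rw [e]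
    exact mem_orb x
  · rw [e]
    exact h.hc
  · rw [e]
    exact (cl_orb x).1 _ (mem_orb x)
  · rw [e]
    exact h.Nc

theorem Four.orb_other {y : V} (hy : y ∉ orb N O x) (hyz : y ∉ orb N O z) :
    orb (fl N x c) O y = orb N O y := by
  have hfl : ∀ a ∈ orb N O y, fl N x c a = N a := fun a ha => by
    obtain ⟨h1, h2, h3, h4⟩ := h.other hy hyz ha
    exact fl_ne h1 h2 h3 h4
  have h1 : orb (fl N x c) O y ⊆ orb N O y := by
    refine orb_sub ⟨fun a ha => ?_, fun a ha => (cl_orb y).2 _ ha⟩ (mem_orb y)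
    rw [hfl a ha]
    exact (cl_orb y).1 _ ha
  refine Set.Subset.antisymm h1 (orb_sub ⟨fun a ha => ?_, fun a ha => (cl_orb y).2 _ ha⟩
    (mem_orb y))
  rw [← hfl a (h1 ha)]
  exact (cl_orb y).1 _ ha

end step

theorem star_aux {V : Type} [Fintype V] [DecidableEq V] {O : V → V} (hO : Inv0 O)
    {R : V → V → Prop} (hR : ∀ a b, R a b → R b a) (z : V) : ∀ (n : ℕ) (N : V → V) (X : Set V)
    (P : Finset V), P.card = n → Inv0 N →
  (∀ y, y ∈ orb N O z ∨ ∃ x ∈ P, y ∈ orb N O x) → (∀ x ∈ P, x ∉ orb N O z) →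
  (∀ x ∈ P, ∀ y ∈ P, x ≠ y → y ∉ orb N O x) → (∀ x ∈ P, x ∉ X ∧ N x ∉ X) →
  (∀ x ∈ P, 2 * n ≤
    {c | c ∈ orb N O z ∧ c ∉ X ∧ N c ∉ X ∧ R x c ∧ R (N x) (N c)}.ncard) →
  ∃ N' : V → V, Inv0 N' ∧ Conn N' O ∧ (∀ a, N' a = N a ∨ (a ∉ X ∧ R a (N' a))) ∧
    {a | N' a ≠ N a}.ncard ≤ 4 * n := by
  intro n
  induction n with
  | zero =>
    intro N X P hP hN hcov _ _ _ _
    rw [Finset.card_eq_zero] at hP
    subst hP
    refine ⟨N, hN, ?_, fun a => Or.inl rfl, ?_⟩
    · intro A ⟨a, ha⟩ hA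
      have haz : ∀ y, y ∈ orb N O z := fun y => by
        rcases hcov y with h | ⟨x, hx, _⟩
        · exact h
        · simp at hx
      have h1 : orb N O z ⊆ A := orb_sub_of_meet hN hO hA ha (haz a)
      exact Set.eq_univ_of_forall fun y => h1 (haz y)
    · have : {a | N a ≠ N a} = (∅ : Set V) := by
        ext a
        simp
      rw [this, Set.ncard_empty]
  | succ n ih =>
    intro N X P hP hN hcov hPz hPP hPX hcand
    obtain ⟨x, hxP⟩ : P.Nonempty := by
      rw [← Finset.card_pos]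
      omega
    have h0 : 2 * (n + 1) ≤ _ := hcand x hxP
    obtain ⟨c, hc⟩ : {c | c ∈ orb N O z ∧ c ∉ X ∧ N c ∉ X ∧ R x c ∧ R (N x) (N c)}.Nonempty := by
      rw [Set.nonempty_iff_ne_empty]
      intro he
      rw [he, Set.ncard_empty] at h0
      omega
    obtain ⟨hcz, hcX, hNcX, hRc, hRNc⟩ := hc
    have F : Four N O x c z := ⟨hN, hO, hPz x hxP, hcz⟩
    have hz1 := F.orb_z
    have hP' : ∀ y ∈ P.erase x, y ∉ orb N O x ∧ y ∉ orb N O z := fun y hy =>
      ⟨hPP x hxP y (Finset.mem_of_mem_erase hy) (Finset.ne_of_mem_erase hy).symm,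
        hPz y (Finset.mem_of_mem_erase hy)⟩
    have horb : ∀ y ∈ P.erase x, orb (fl N x c) O y = orb N O y := fun y hy =>
      F.orb_other (hP' y hy).1 (hP' y hy).2
    have hNy : ∀ y ∈ P.erase x, fl N x c y = N y := fun y hy => by
      obtain ⟨h1, h2, h3, h4⟩ := F.other (hP' y hy).1 (hP' y hy).2 (mem_orb y)
      exact fl_ne h1 h2 h3 h4
    obtain ⟨X', hX'⟩ : ∃ X' : Set V, X' = X ∪ {x, c, N x, N c} := ⟨_, rfl⟩
    have hX'n : ∀ a, a ∉ X → a ≠ x ∧ a ≠ c ∧ a ≠ N x ∧ a ≠ N c → a ∉ X' := by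
      intro a ha ⟨h1, h2, h3, h4⟩
      rw [hX']
      rintro (h5 | h5)
      · exact ha h5
      · simp only [Set.mem_insert_iff, Set.mem_singleton_iff] at h5
        rcases h5 with h5 | h5 | h5 | h5
        · exact h1 h5
        · exact h2 h5
        · exact h3 h5
        · exact h4 h5
    obtain ⟨N', hN', hconn, hval, hcnt⟩ := ih (fl N x c) X' (P.erase x)
      (by rw [Finset.card_erase_of_mem hxP, hP]; rfl) F.inv
      (by
        intro y
        rcases hcov y with h1 | ⟨w, hw, hyw⟩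
        · exact Or.inl (hz1.1 h1)
        · by_cases hwx : w = x
          · rw [hwx] at hyw
            exact Or.inl (hz1.2 hyw)
          · refine Or.inr ⟨w, Finset.mem_erase.2 ⟨hwx, hw⟩, ?_⟩
            rw [horb w (Finset.mem_erase.2 ⟨hwx, hw⟩)]
            exact hyw)
      (by
        intro y hy h1
        rcases F.orb_z_le h1 with h2 | h2
        · exact (hP' y hy).2 h2
        · exact (hP' y hy).1 h2)
      (by
        intro y hy w hw hyw
        rw [horb y hy]
        exact hPP y (Finset.mem_of_mem_erase hy) w (Finset.mem_of_mem_erase hw) hyw)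
      (by
        intro y hy
        have h1 := hPX y (Finset.mem_of_mem_erase hy)
        rw [hNy y hy]
        exact ⟨hX'n _ h1.1 (F.other (hP' y hy).1 (hP' y hy).2 (mem_orb y)),
          hX'n _ h1.2 (F.other (hP' y hy).1 (hP' y hy).2 ((cl_orb y).1 _ (mem_orb y)))⟩)
      (by
        intro y hy
        rw [hNy y hy]
        have h1 := hcand y (Finset.mem_of_mem_erase hy)
        have h2 : {c' | c' ∈ orb N O z ∧ c' ∉ X ∧ N c' ∉ X ∧ R y c' ∧ R (N y) (N c')} \
            {c, N c} ⊆ {c' | c' ∈ orb (fl N x c) O z ∧ c' ∉ X' ∧ fl N x c c' ∉ X' ∧ R y c' ∧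
              R (N y) (fl N x c c')} := by
          rintro a ⟨⟨ha1, ha2, ha3, ha4, ha5⟩, ha6⟩
          simp only [Set.mem_insert_iff, Set.mem_singleton_iff, not_or] at ha6
          have hax : a ≠ x := fun e => F.hx (e ▸ ha1)
          have haNx : a ≠ N x := fun e => F.Nx (e ▸ ha1)
          have hfa : fl N x c a = N a := fl_ne hax ha6.1 haNx ha6.2
          have hNa : N a ∈ orb N O z := (cl_orb z).1 _ ha1
          refine ⟨hz1.1 ha1, hX'n _ ha2 ⟨hax, ha6.1, haNx, ha6.2⟩, ?_, ha4, ?_⟩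
          · rw [hfa]
            refine hX'n _ ha3 ⟨fun e => F.hx (e ▸ hNa), fun e => ha6.2 ?_,
              fun e => F.Nx (e ▸ hNa), fun e => ha6.1 ?_⟩
            · rw [← e, hN.1]
            · rw [← hN.1 a, e, hN.1]
          · rw [hfa]
            exact ha5
        have h3 := Set.ncard_le_ncard h2 (Set.toFinite _)
        have h4 := Set.le_ncard_sdiff ({c, N c} : Set V)
          {c' | c' ∈ orb N O z ∧ c' ∉ X ∧ N c' ∉ X ∧ R y c' ∧ R (N y) (N c')} (Set.toFinite _)
        have h5 : ({c, N c} : Set V).ncard ≤ 2 := by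
          refine (Set.ncard_insert_le _ _).trans ?_
          rw [Set.ncard_singleton]
        omega)
    refine ⟨N', hN', hconn, ?_, ?_⟩
    · intro a
      rcases hval a with h1 | ⟨h1, h2⟩
      · rw [h1]
        by_cases e1 : a = x
        · rw [e1, fl_x]
          exact Or.inr ⟨(hPX x hxP).1, hRc⟩
        by_cases e2 : a = c
        · rw [e2, fl_c F.cx]
          exact Or.inr ⟨hcX, hR _ _ hRc⟩
        by_cases e3 : a = N x
        · rw [e3, fl_Nx F.Nxx F.Nxc]
          exact Or.inr ⟨(hPX x hxP).2, hRNc⟩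
        by_cases e4 : a = N c
        · rw [e4, fl_Nc F.Ncx F.Ncc F.NcNx]
          exact Or.inr ⟨hNcX, hR _ _ hRNc⟩
        exact Or.inl (fl_ne e1 e2 e3 e4)
      · refine Or.inr ⟨fun h3 => h1 ?_, h2⟩
        rw [hX']
        exact Or.inl h3
    · have h1 : {a | N' a ≠ N a} ⊆ {a | N' a ≠ fl N x c a} ∪ {x, c, N x, N c} := by
        intro a ha
        by_cases h2 : a ∈ ({x, c, N x, N c} : Set V)
        · exact Or.inr h2
        · refine Or.inl fun h3 => ha ?_
          simp only [Set.mem_insert_iff, Set.mem_singleton_iff, not_or] at h2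
          rw [h3, fl_ne h2.1 h2.2.1 h2.2.2.1 h2.2.2.2]
      have h2 := Set.ncard_le_ncard h1 (Set.toFinite _)
      have h3 := Set.ncard_union_le {a | N' a ≠ fl N x c a} ({x, c, N x, N c} : Set V)
      have h4 : ({x, c, N x, N c} : Set V).ncard ≤ 4 := by
        refine (Set.ncard_insert_le _ _).trans ?_
        refine (Nat.add_le_add_right (Set.ncard_insert_le _ _) 1).trans ?_
        refine (Nat.add_le_add_right (Nat.add_le_add_right (Set.ncard_insert_le _ _) 1) 1).trans ?_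
        rw [Set.ncard_singleton]
      omega

theorem star : S_STAR := by
  intro V _ _ N O X R m z P hN hO hR hP hcov hPz hPP hPX hcand
  obtain ⟨N', h1, h2, h3, h4⟩ := star_aux hO hR z P.card N X P rfl hN hcov hPz hPP hPX
    fun x hx => (Nat.mul_le_mul_left 2 hP).trans (hcand x hx)
  exact ⟨N', h1, h2, h3, h4.trans (Nat.mul_le_mul_left 4 hP)⟩

end Pool.Agent.H870.ET

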